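import Pool.Agent.T6.H46.CZ.Stm2

/-!
Project CZ (MP_3d11e1_an), help for module RC2: the gap step.
-/

set_option autoImplicit false

namespace Pool.Agent.T6.H2.CZ

open Finset Filter Pool.Agent.T6.H46.CZ

theorem nd_nonneg (x : ℝ) : 0 ≤ nd x := abs_nonneg _

theorem nd_le_half (x : ℝ) : nd x ≤ 1 / 2 := abs_sub_round x

theorem nd_pos_of_irr {d : ℕ} {α : Fin d → ℝ} (h : Irr α) {Q : Fin d → ℤ} (hQ : Q ≠ 0) :
    0 < nd (tf α Q) := by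
  unfold nd
  rw [abs_pos]
  intro h0
  exact h Q hQ (round (tf α Q)) (by linarith)

theorem gg_nonneg {s : ℝ} (hs : 0 ≤ s) : 0 ≤ gg s := by
  unfold gg
  split_ifs with h1 h2
  · linarith
  · push Not at h1
    positivity
  · exact le_rfl

theorem gg_le_two {s : ℝ} (hs : 0 ≤ s) : gg s ≤ 2 := by
  unfold gg
  split_ifs with h1 h2
  · linarith
  · push Not at h1
    rw [div_le_iff₀ (by positivity)]
    nlinarith
  · norm_num

theorem abs_gg_le {s : ℝ} (hs : 0 ≤ s) : |gg s| ≤ 2 := by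
  rw [abs_of_nonneg (gg_nonneg hs)]
  exact gg_le_two hs

theorem gg_eq_zero {s : ℝ} (hs : 2 ≤ s) : gg s = 0 := by
  unfold gg
  rw [if_neg (by linarith)]
  split_ifs with h2
  · have : s = 2 := le_antisymm h2 hs
    subst this
    norm_num
  · rfl

theorem gg_of_le_one {s : ℝ} (hs : s ≤ 1) : gg s = 2 - 3 / 2 * s := by
  unfold gg
  rw [if_pos hs]

/-- the tail -/
noncomputable def ep {d : ℕ} (b : (Fin d → ℤ) → ℂ) (R : ℝ) : ℝ :=
  ∑' Q, (if ‖Q‖ ≤ R then 0 else ‖b Q‖)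

theorem ep_summable {d : ℕ} {b : (Fin d → ℤ) → ℂ} (hs : Summable fun Q => ‖b Q‖) (R : ℝ) :
    Summable fun Q => (if ‖Q‖ ≤ R then 0 else ‖b Q‖ : ℝ) := by
  refine Summable.of_nonneg_of_le (fun Q => ?_) (fun Q => ?_) hs
  · split_ifs
    · exact le_rfl
    · exact norm_nonneg _
  · split_ifs
    · exact norm_nonneg _
    · exact le_rfl

theorem ep_nonneg {d : ℕ} (b : (Fin d → ℤ) → ℂ) (R : ℝ) : 0 ≤ ep b R := by
  refine tsum_nonneg fun Q => ?_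
  split_ifs
  · exact le_rfl
  · exact norm_nonneg _

/-- a sum over the frequencies whose coefficients vanish for `‖Q‖ ≤ R` and are at most `c` in
general -/
theorem tsum_le_ep {d : ℕ} {b : (Fin d → ℤ) → ℂ} (hb0 : b 0 = 0)
    (hs : Summable fun Q => ‖b Q‖) {R c : ℝ} (g : (Fin d → ℤ) → ℝ)
    (hg0 : ∀ Q, Q ≠ 0 → ‖Q‖ ≤ R → g Q = 0) (hgc : ∀ Q, |g Q| ≤ c) :
    ‖∑' Q, b Q * ((g Q : ℝ) : ℂ)‖ ≤ c * ep b R := by
  have hle : ∀ Q, ‖b Q * ((g Q : ℝ) : ℂ)‖ ≤ c * (if ‖Q‖ ≤ R then 0 else ‖b Q‖) := by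
    intro Q
    rw [norm_mul, Complex.norm_real, Real.norm_eq_abs]
    split_ifs with h
    · rcases eq_or_ne Q 0 with rfl | hQ
      · rw [hb0]; simp
      · rw [hg0 Q hQ h]; simp
    · rw [mul_comm]
      exact mul_le_mul_of_nonneg_right (hgc Q) (norm_nonneg _)
  have hsum : Summable fun Q => c * (if ‖Q‖ ≤ R then 0 else ‖b Q‖ : ℝ) :=
    (ep_summable hs R).mul_left c
  have hn : Summable fun Q => ‖b Q * ((g Q : ℝ) : ℂ)‖ :=
    Summable.of_nonneg_of_le (fun _ => norm_nonneg _) hle hsum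
  calc ‖∑' Q, b Q * ((g Q : ℝ) : ℂ)‖ ≤ ∑' Q, ‖b Q * ((g Q : ℝ) : ℂ)‖ := norm_tsum_le_tsum_norm hn
    _ ≤ ∑' Q, c * (if ‖Q‖ ≤ R then 0 else ‖b Q‖ : ℝ) := hn.tsum_le_tsum hle hsum
    _ = c * ep b R := by rw [tsum_mul_left]; rfl

theorem summable_gg {d : ℕ} {b : (Fin d → ℤ) → ℂ} (hs : Summable fun Q => ‖b Q‖)
    (g : (Fin d → ℤ) → ℝ) {c : ℝ} (hgc : ∀ Q, |g Q| ≤ c) :
    Summable fun Q => b Q * ((g Q : ℝ) : ℂ) := by
  refine Summable.of_norm_bounded (g := fun Q => c * ‖b Q‖) (hs.mul_left c) fun Q => ?_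
  rw [norm_mul, Complex.norm_real, Real.norm_eq_abs, mul_comm]
  exact mul_le_mul_of_nonneg_right (hgc Q) (norm_nonneg _)

theorem base {d : ℕ} {α : Fin d → ℝ} {b : (Fin d → ℤ) → ℂ} (hb0 : b 0 = 0)
    (hs : Summable fun Q => ‖b Q‖) {B : ℕ → ℝ} {N : ℕ}
    (hB : (B N : ℂ) = ∑' Q, b Q * ((gg (N * nd (tf α Q)) : ℝ) : ℂ)) {R : ℝ}
    (h : ∀ Q, Q ≠ 0 → ‖Q‖ ≤ R → 2 ≤ N * nd (tf α Q)) :
    B N ≤ 2 * ep b R := by
  have h1 := tsum_le_ep hb0 hs (R := R) (c := 2) (fun Q => gg (N * nd (tf α Q)))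
    (fun Q hQ hR => gg_eq_zero (h Q hQ hR))
    (fun Q => abs_gg_le (mul_nonneg (Nat.cast_nonneg _) (nd_nonneg _)))
  rw [← hB, Complex.norm_real, Real.norm_eq_abs] at h1
  exact (le_abs_self _).trans h1

theorem gap {d : ℕ} {α : Fin d → ℝ} {b : (Fin d → ℤ) → ℂ} (hb0 : b 0 = 0)
    (hs : Summable fun Q => ‖b Q‖) {B : ℕ → ℝ} {N N1 : ℕ} (hN : 1 ≤ N) (hNN : N ≤ N1)
    (hB : (B N : ℂ) = ∑' Q, b Q * ((gg (N * nd (tf α Q)) : ℝ) : ℂ))
    (hB1 : (B N1 : ℂ) = ∑' Q, b Q * ((gg (N1 * nd (tf α Q)) : ℝ) : ℂ))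
    (hB2 : (B (2 * N1) : ℂ) = ∑' Q, b Q * ((gg ((2 * N1 : ℕ) * nd (tf α Q)) : ℝ) : ℂ))
    (hp1 : 0 < B N1) (hp2 : 0 < B (2 * N1)) {R : ℝ}
    (h : ∀ Q, Q ≠ 0 → ‖Q‖ ≤ R → 2 ≤ N * nd (tf α Q) ∨ 2 * N1 * nd (tf α Q) ≤ 1) :
    B N ≤ 2 * B N1 + 8 * ep b R := by
  have hN1 : (1 : ℝ) ≤ N1 := by exact_mod_cast hN.trans hNN
  have hNr : (1 : ℝ) ≤ N := by exact_mod_cast hN
  have hNNr : (N : ℝ) ≤ N1 := by exact_mod_cast hNN
  set l : ℝ := (N1 - N) / N1 with hl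
  have hl0 : 0 ≤ l := div_nonneg (by linarith) (by linarith)
  have hl1 : l ≤ 1 := by
    rw [hl, div_le_one (by linarith)]
    linarith
  have hlN : (N : ℝ) = (1 + l) * N1 - l * (2 * N1) := by
    rw [hl]
    field_simp
    ring
  have hx0 : ∀ Q : Fin d → ℤ, 0 ≤ nd (tf α Q) := fun Q => nd_nonneg _
  set g : (Fin d → ℤ) → ℝ := fun Q => gg (N * nd (tf α Q)) - (1 + l) * gg (N1 * nd (tf α Q))
    + l * gg ((2 * N1 : ℕ) * nd (tf α Q)) with hgdef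
  have hb2 : ∀ (M : ℕ) (Q : Fin d → ℤ), |gg (M * nd (tf α Q))| ≤ 2 := fun M Q =>
    abs_gg_le (mul_nonneg (Nat.cast_nonneg _) (nd_nonneg _))
  have hg0 : ∀ Q, Q ≠ 0 → ‖Q‖ ≤ R → g Q = 0 := by
    intro Q hQ hR
    have hx := hx0 Q
    rcases h Q hQ hR with h2 | h1
    · have e1 : (2 : ℝ) ≤ N1 * nd (tf α Q) := h2.trans (mul_le_mul_of_nonneg_right hNNr hx)
      have e2 : (2 : ℝ) ≤ (2 * N1 : ℕ) * nd (tf α Q) := by
        push_cast
        nlinarith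
      rw [hgdef]
      simp only
      rw [gg_eq_zero h2, gg_eq_zero e1, gg_eq_zero e2]
      ring
    · have e2 : ((2 * N1 : ℕ) : ℝ) * nd (tf α Q) ≤ 1 := by
        push_cast
        exact h1
      have e1 : (N1 : ℝ) * nd (tf α Q) ≤ 1 := by nlinarith
      have e0 : (N : ℝ) * nd (tf α Q) ≤ 1 :=
        (mul_le_mul_of_nonneg_right hNNr hx).trans e1
      rw [hgdef]
      simp only
      rw [gg_of_le_one e0, gg_of_le_one e1, gg_of_le_one e2]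
      push_cast
      rw [hlN]
      ring
  have hgc : ∀ Q, |g Q| ≤ 8 := by
    intro Q
    have a0 := abs_le.1 (hb2 N Q)
    have a1 := abs_le.1 (hb2 N1 Q)
    have a2 := abs_le.1 (hb2 (2 * N1) Q)
    have g0 : 0 ≤ gg (N * nd (tf α Q)) := gg_nonneg (mul_nonneg (Nat.cast_nonneg _) (nd_nonneg _))
    have g1 : 0 ≤ gg (N1 * nd (tf α Q)) := gg_nonneg (mul_nonneg (Nat.cast_nonneg _) (nd_nonneg _))
    have g2 : 0 ≤ gg ((2 * N1 : ℕ) * nd (tf α Q)) :=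
      gg_nonneg (mul_nonneg (Nat.cast_nonneg _) (nd_nonneg _))
    rw [abs_le, hgdef]
    simp only
    constructor
    · nlinarith [mul_nonneg hl0 g2, mul_nonneg hl0 g1, mul_le_mul_of_nonneg_right hl1 g1]
    · nlinarith [mul_nonneg hl0 g2, mul_nonneg hl0 g1, mul_le_mul_of_nonneg_right hl1 g2]
  have key := tsum_le_ep hb0 hs (R := R) (c := 8) g hg0 hgc
  have hsum : ∑' Q, b Q * ((g Q : ℝ) : ℂ) = ((B N - (1 + l) * B N1 + l * B (2 * N1) : ℝ) : ℂ) := by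
    have s0 := summable_gg hs (fun Q => gg (N * nd (tf α Q))) (hb2 N)
    have s1 := summable_gg hs (fun Q => gg (N1 * nd (tf α Q))) (hb2 N1)
    have s2 := summable_gg hs (fun Q => gg ((2 * N1 : ℕ) * nd (tf α Q))) (hb2 (2 * N1))
    have := ((s0.hasSum.sub (s1.hasSum.mul_left ((1 + l : ℝ) : ℂ))).add
      (s2.hasSum.mul_left ((l : ℝ) : ℂ))).tsum_eq
    rw [← hB, ← hB1, ← hB2] at this
    push_cast
    rw [← (by push_cast; rfl : ((1 + l : ℝ) : ℂ) = 1 + (l : ℂ)), ← this]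
    refine tsum_congr fun Q => ?_
    rw [hgdef]
    push_cast
    ring
  rw [hsum, Complex.norm_real, Real.norm_eq_abs] at key
  have := (abs_le.1 key).2
  have h3 : l * B N1 ≤ B N1 := by nlinarith
  have h4 : 0 ≤ l * B (2 * N1) := mul_nonneg hl0 hp2.le
  nlinarith

end Pool.Agent.T6.H2.CZ
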